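import Mathlib
import Pool.Prelude.Def_F_cef2bd1b
import Pool.Agent.H49.Cu2
import Pool.Agent.H49.Cu4

set_option autoImplicit false
open N0a8789b9

namespace Pool.Agent.Results.MP_9df71a_co.Liminf

/-- For infinitely many `n`, every `k ≥ (log n)^(40 n)` is admissible for `n`. -/
theorem result (N : ℕ) :
    ∃ n : ℕ, N ≤ n ∧ ∀ k : ℕ, Real.log n ^ (40 * n) ≤ k → Admissible n k := by
  obtain ⟨b, hb⟩ : ∃ b, N + 300 ≤ b := ⟨_, le_rfl⟩
  obtain ⟨n, h1, h2⟩ := Pool.Agent.H49.Cv.core b (by omega)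
  have k1 : b ≤ b ^ b := Nat.le_self_pow (by omega) b
  refine ⟨n, by omega, fun k hk => ?_⟩
  have hn : 0 < n := by omega
  have key := Pool.Agent.H49.Cu.frob (K := b ^ 19) hn fun p hp => by
    obtain ⟨i, hi, hd⟩ := h2 p hp
    exact ⟨i, (Finset.mem_Icc.1 hi).1, (Finset.mem_Icc.1 hi).2, hd⟩
  have k3 : (300:ℝ) ≤ b := by exact_mod_cast (by omega : 300 ≤ b)
  have a : (b:ℝ) ^ b ≤ n := by exact_mod_cast h1.le
  have a2 := Real.log_le_log (by positivity) a
  rw [Real.log_pow] at a2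
  have c : 1 ≤ Real.log b := by
    rw [Real.le_log_iff_exp_le (by linarith)]
    linarith [Real.exp_one_lt_d9]
  have d : (b:ℝ) ^ (40 * n) ≤ k :=
    (pow_le_pow_left₀ (by positivity) (by nlinarith) _).trans hk
  have d' : b ^ (40 * n) ≤ k := by exact_mod_cast d
  have big : b ^ 19 * ((b ^ 19) ^ n * 2 ^ n) < k := by
    calc b ^ 19 * ((b ^ 19) ^ n * 2 ^ n) ≤ b ^ 19 * ((b ^ 19) ^ n * b ^ n) :=
          Nat.mul_le_mul_left _ (Nat.mul_le_mul_left _ (Nat.pow_le_pow_left (by omega) n))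
      _ = b ^ (19 + 20 * n) := by ring
      _ < b ^ (40 * n) := Nat.pow_lt_pow_right (by omega) (by omega)
      _ ≤ k := d'
  have := key (k - 1) (by omega)
  rwa [Nat.sub_add_cancel (by omega)] at this

end Pool.Agent.Results.MP_9df71a_co.Liminf
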